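import Pool.Agent.Y121.NK.Main

/-!
# Kimura-finite noncommutative motives of geometric origin are Kimura-finite Chow motives

`𝒱` is a class of smooth projective geometrically irreducible varieties over the field `k` closed
under products (for the problem: all of them), `C` the Chow groups with rational coefficients (in
the form of their formal properties, `IsChowProj`), `H` a Weil cohomology theory (`IsWeilProj`) for
which `H(X × X)` is finite-dimensional.

Dictionary. The map `α ↦ ch(α) √td(X × Y)` is an isomorphism of `K_0(X × Y)_ℚ` with the group
`CH^*(X × Y)_ℚ` of classes of *all* degrees, it is compatible with compositions (theorem of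
Grothendieck, Riemann and Roch) and external products. So the endomorphism ring of the
noncommutative Chow motive `U(perf_dg X)_ℚ` is the ring `C.A (X × X)` with the composition `C.comp`,
and a direct summand of `U(perf_dg X)_ℚ` is a pair `(X, e)` with an idempotent `e`, not necessarily
homogeneous. The Chow motives `(X, e)` are those with `e` homogeneous of codimension `dim X`.
For `W = X^n × X^n` and the `2n` projections `altPower C e x y` is `n!` times the idempotent
defining `Λ^n (X, e)`; so `IsNCKimura C e` says that the noncommutative motive `(X, e)` is
Kimura-finite, `IsChowKimura C e` that the Chow motive `(X, e)` is Kimura-finite.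

Theorem. For an idempotent `e` (for example that of an admissible subcategory of `perf_dg X`) the
noncommutative motive `(X, e)` is Kimura-finite if and only if it is isomorphic to the image of a
Kimura-finite Chow motive `(X, p)`; here one can take `p = e` if `e` is homogeneous. In particular
(for `e` the diagonal) `U(perf_dg X)_ℚ` is Kimura-finite if and only if the Chow motive of `X` is.

Steps of the proof: (1) the trace (the degree of the restriction to the diagonal) is defined on
classes of all degrees; a composition of a morphism from an even to an odd summand and of a morphism
in the other direction has trace zero. (2) Comparing a decomposition with its image under the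
automorphism `2^(deg)` of `C.A (X × X)`, the components of nonzero degree of its idempotents lie in
the radical `J` of the trace form. (3) By the theorem of Nagata and Higman `J` is nil on the ideal
generated by the two idempotents, which gives the homogeneous case. (4) Modulo the preimage of the Jacobson
radical of the finite-dimensional ring `C.A (X × X) / J` the left ideal of `e` degenerates to its
homogeneous ideal of initial forms, which is generated by a homogeneous idempotent `p`, and is
isomorphic to it; (5) lifting of `p` and of the isomorphism.
-/

open CategoryTheory AlgebraicGeometry

set_option autoImplicit false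

universe u v w

namespace Pool.Agent.Results.MP_6e5bed_ag.GeometricKimura

open Pool.Agent.H914 Pool.Agent.H914.VarClass Pool.Agent.H914.VarClass.Obj Pool.Agent.W492.BB
  Pool.Agent.W550.Corr Pool.Agent.TH133 Pool.Agent.TH829.Kim Pool.Agent.Y121.NK

/-- For an idempotent `e`, the noncommutative Chow motive `(X, e)` (a direct summand of
`U(perf_dg X)_ℚ`) is Kimura-finite if and only if it is isomorphic, as a noncommutative motive, to a
Kimura-finite Chow motive `(X, p)`, with `p = e` if `e` is homogeneous. -/
theorem result {k : Type u} [Field k] {𝒱 : VarClass k} {C : TheoryData.{u, v, 0} 𝒱 ℚ}
    [IsChowProj C] {K : Type w} [Field K] (H : WeilTheoryData.{u, v, w} C K) [IsWeilProj H]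
    (X : 𝒱.Obj) [FiniteDimensional K (H.A (X.prod X))] (e : C.A (X.prod X))
    (he : C.comp e e = e) : IsNCKimura C e ↔
      ∃ p u v : C.A (X.prod X), C.Deg X.dim p ∧ C.comp p p = p ∧ C.comp u v = e ∧
        C.comp v u = p ∧ (C.Deg X.dim e → p = e) ∧ IsChowKimura C p :=
  main H X e he

end Pool.Agent.Results.MP_6e5bed_ag.GeometricKimura
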